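import Mathlib

namespace Pool.Agent.Results.MP_8e4c55_nt.Binary

open Finset

/-- `A_(k) = {a_0 + a_1 β + ⋯ + a_{k-1} β^{k-1} : a_i ∈ A}`. -/
def blockDigits (β : ℂ) (A : Set ℤ) (k : ℕ) : Set ℂ :=
  {x | ∃ a : ℕ → ℤ, (∀ i < k, a i ∈ A) ∧ x = ∑ i ∈ range k, (a i : ℂ) * β ^ i}

/-- `D + D`. -/
def sumSet (D : Set ℂ) : Set ℂ := {x | ∃ y ∈ D, ∃ z ∈ D, x = y + z}

/-- `φ` is a digit set conversion in base `b` from `D` to `E`. -/
def IsConversion (b : ℂ) (D E : Set ℂ) (φ : (ℤ → D) → (ℤ → E)) : Prop :=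
  ∀ u : ℤ → D, (Function.support fun j => (u j : ℂ)).Finite →
    (Function.support fun j => (φ u j : ℂ)).Finite ∧
      ∑ᶠ j : ℤ, (φ u j : ℂ) * b ^ j = ∑ᶠ j : ℤ, (u j : ℂ) * b ^ j

/-- `φ` is `p`-local for some `p = r + t + 1`: `φ(u)_j = Φ(u_{j+t}, …, u_{j-r})`. -/
def IsLocal {D E : Type} (φ : (ℤ → D) → (ℤ → E)) : Prop :=
  ∃ (r t : ℕ) (Φ : (Fin (r + t + 1) → D) → E),
    ∀ u j, φ u j = Φ fun i => u (j + t - (i : ℕ))

/-- Addition on `A` is `k`-block parallel in base `β`. -/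
def BlockParallel (β : ℂ) (A : Set ℤ) (k : ℕ) : Prop :=
  ∃ φ : (ℤ → sumSet (blockDigits β A k)) → (ℤ → blockDigits β A k),
    IsConversion (β ^ k) _ _ φ ∧ IsLocal φ

def pw : ℕ → ℤ × ℤ × ℤ
  | 0 => (-7, -49, -33)
  | n + 1 => (-(pw n).2.2, (pw n).1 + (pw n).2.2, (pw n).2.1)

def hs (v : ℤ × ℤ × ℤ) : ℤ := v.1 + 144 * v.2.1 + 26064 * v.2.2

def ex (r : ℕ) : ℤ :=
  if r ∈ [0, 5, 6, 7] then 1 else if r ∈ [13, 16, 18, 19, 21, 23] then -1 else 0

def pp (r : ℕ) : ℕ := (r + 26 * ex r + 13).toNat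

def reach (h : ℕ → ℤ) (s : ℕ) : ℕ → ℕ
  | 0 => s
  | n + 1 => reach h s n ||| reach h s n <<< (h n).natAbs

def Mem (s : ℕ) (o T : ℤ) : Prop := ∃ t : ℕ, s.testBit t = true ∧ T = t + o

def Bin (a : ℕ → ℤ) : Prop := ∀ i, a i = 0 ∨ a i = 1

theorem step (S : ℕ) (h o T : ℤ) :
    Mem (S ||| S <<< h.natAbs) (o + min h 0) T ↔ Mem S o T ∨ Mem S o (T - h) := by
  simp only [Mem, Nat.testBit_or, Nat.testBit_shiftLeft, Bool.or_eq_true, Bool.and_eq_true,
    decide_eq_true_eq]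
  rcases le_total h 0 with h0 | h0
  · constructor
    · rintro ⟨t, h1 | ⟨h1, h2⟩, rfl⟩
      · exact Or.inr ⟨t, h1, by omega⟩
      · exact Or.inl ⟨_, h2, by omega⟩
    · rintro (⟨t, h1, h2⟩ | ⟨t, h1, h2⟩)
      · exact ⟨t + h.natAbs, Or.inr ⟨by omega, by simpa using h1⟩, by omega⟩
      · exact ⟨t, Or.inl h1, by omega⟩
  · constructor
    · rintro ⟨t, h1 | ⟨h1, h2⟩, rfl⟩
      · exact Or.inl ⟨t, h1, by omega⟩
      · exact Or.inr ⟨_, h2, by omega⟩
    · rintro (⟨t, h1, h2⟩ | ⟨t, h1, h2⟩)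
      · exact ⟨t, Or.inl h1, by omega⟩
      · exact ⟨t + h.natAbs, Or.inr ⟨by omega, by simpa using h1⟩, by omega⟩

theorem memE (h : ℕ → ℤ) {s : ℕ} {o T : ℤ} (hm : Mem s o T) {a : ℕ → ℤ} (ha : Bin a) (n : ℕ) :
    Mem (reach h s n) (o + ∑ i ∈ range n, min (h i) 0) (T + ∑ i ∈ range n, a i * h i) := by
  induction n with
  | zero => simpa [reach] using hm
  | succ n ih =>
    rw [reach, sum_range_succ, sum_range_succ, ← add_assoc, step]
    rcases ha n with e | e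
    · left; simpa [e] using ih
    · right; convert ih using 1; rw [e]; ring

theorem memR (h : ℕ → ℤ) (n : ℕ) : ∀ T, Mem (reach h 1 n) (∑ i ∈ range n, min (h i) 0) T →
    ∃ a, Bin a ∧ T = ∑ i ∈ range n, a i * h i := by
  induction n with
  | zero =>
    rintro T ⟨t, h1, rfl⟩
    refine ⟨0, fun _ => Or.inl rfl, ?_⟩
    have : t = 0 := by simpa [reach, Nat.testBit_one_eq_true_iff_self_eq_zero] using h1
    simp [this]
  | succ n ih =>
    intro T hT
    rw [reach, sum_range_succ, step] at hT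
    have key : ∀ (a : ℕ → ℤ) (c : ℤ), ∑ i ∈ range (n + 1), Function.update a n c i * h i
        = ∑ i ∈ range n, a i * h i + c * h n := fun a c => by
      rw [sum_range_succ, Function.update_self]
      congr 1
      exact sum_congr rfl fun i hi => by rw [Function.update_of_ne (mem_range.1 hi).ne]
    have kb : ∀ (a : ℕ → ℤ) (c : ℤ), Bin a → (c = 0 ∨ c = 1) → Bin (Function.update a n c) :=
      fun a c ha hc i => by
        by_cases e : i = n
        · subst e; simpa using hc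
        · rw [Function.update_of_ne e]; exact ha i
    rcases hT with hT | hT
    · obtain ⟨a, ha, e⟩ := ih _ hT
      exact ⟨_, kb a 0 ha (Or.inl rfl), by rw [key]; linarith⟩
    · obtain ⟨a, ha, e⟩ := ih _ hT
      exact ⟨_, kb a 1 ha (Or.inr rfl), by rw [key]; linarith⟩

def hE (i : ℕ) : ℤ := hs (pw (i + 13))
def hR (r : ℕ) : ℤ := hs (pw (pp r))

theorem check : (reach hE (reach hE 1 26) 26 <<< 1408447) &&& reach hR 1 26
    = reach hE (reach hE 1 26) 26 <<< 1408447 := by decide +kernel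

theorem offs : 0 + ∑ i ∈ range 26, min (hE i) 0 + ∑ i ∈ range 26, min (hE i) 0
    = ∑ i ∈ range 26, min (hR i) 0 + 1408447 := by decide +kernel

theorem bnd {a : ℕ → ℤ} (ha : Bin a) (x : ℕ → ℤ) (n : ℕ) :
    ∑ i ∈ range n, min (x i) 0 ≤ ∑ i ∈ range n, a i * x i ∧
      ∑ i ∈ range n, a i * x i ≤ ∑ i ∈ range n, max (x i) 0 :=
  ⟨sum_le_sum fun i _ => by rcases ha i with e | e <;> simp [e],
    sum_le_sum fun i _ => by rcases ha i with e | e <;> simp [e]⟩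

theorem hsum (a : ℕ → ℤ) (v : ℕ → ℤ × ℤ × ℤ) (n : ℕ) : ∑ i ∈ range n, a i * hs (v i)
    = ∑ i ∈ range n, a i * (v i).1 + 144 * ∑ i ∈ range n, a i * (v i).2.1
      + 26064 * ∑ i ∈ range n, a i * (v i).2.2 := by
  rw [mul_sum, mul_sum, ← sum_add_distrib, ← sum_add_distrib]
  exact sum_congr rfl fun i _ => by unfold hs; ring

theorem comb {a b : ℕ → ℤ} (ha : Bin a) (hb : Bin b) : ∃ g, Bin g ∧
    (∑ i ∈ range 26, a i * (pw (i + 13)).1 + ∑ i ∈ range 26, b i * (pw (i + 13)).1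
      = ∑ i ∈ range 26, g i * (pw (pp i)).1) ∧
    (∑ i ∈ range 26, a i * (pw (i + 13)).2.1 + ∑ i ∈ range 26, b i * (pw (i + 13)).2.1
      = ∑ i ∈ range 26, g i * (pw (pp i)).2.1) ∧
    (∑ i ∈ range 26, a i * (pw (i + 13)).2.2 + ∑ i ∈ range 26, b i * (pw (i + 13)).2.2
      = ∑ i ∈ range 26, g i * (pw (pp i)).2.2) := by
  obtain ⟨t, h1, h2⟩ := memE hE (memE hE (s := 1) (o := 0) (T := 0) ⟨0, rfl, rfl⟩ ha 26) hb 26
  have h3 : (reach hR 1 26).testBit (t + 1408447) = true := by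
    have := congrArg (fun z => Nat.testBit z (t + 1408447)) check
    simp only [Nat.testBit_and, Nat.testBit_shiftLeft, Nat.add_sub_cancel, h1] at this
    simpa using this
  obtain ⟨g, hg, e⟩ := memR hR 26 _ ⟨_, h3, rfl⟩
  refine ⟨g, hg, ?_⟩
  rw [offs] at h2
  have e2 : ∑ i ∈ range 26, a i * hE i + ∑ i ∈ range 26, b i * hE i
      = ∑ i ∈ range 26, g i * hR i := by push_cast at e; linarith
  unfold hE hR at e2
  rw [hsum a fun i => pw (i + 13), hsum b fun i => pw (i + 13), hsum g fun i => pw (pp i)] at e2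
  have a1 := bnd ha (fun i => (pw (i + 13)).1) 26
  have a2 := bnd ha (fun i => (pw (i + 13)).2.1) 26
  have b1 := bnd hb (fun i => (pw (i + 13)).1) 26
  have b2 := bnd hb (fun i => (pw (i + 13)).2.1) 26
  have g1 := bnd hg (fun i => (pw (pp i)).1) 26
  have g2 := bnd hg (fun i => (pw (pp i)).2.1) 26
  have c1 : 2 * ∑ i ∈ range 26, max (pw (i + 13)).1 0 - ∑ i ∈ range 26, min (pw (pp i)).1 0 < 144 ∧
      ∑ i ∈ range 26, max (pw (pp i)).1 0 - 2 * ∑ i ∈ range 26, min (pw (i + 13)).1 0 < 144 ∧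
      2 * ∑ i ∈ range 26, max (pw (i + 13)).2.1 0 - ∑ i ∈ range 26, min (pw (pp i)).2.1 0 < 181 ∧
      ∑ i ∈ range 26, max (pw (pp i)).2.1 0 - 2 * ∑ i ∈ range 26, min (pw (i + 13)).2.1 0 < 181 := by
    decide +kernel
  omega

variable {β : ℂ} (hβ : β ^ 3 - β + 1 = 0)
include hβ

theorem ev (n : ℕ) : ((pw n).1 : ℂ) + (pw n).2.1 * β + (pw n).2.2 * β ^ 2
    = β ^ n * (-7 - 49 * β - 33 * β ^ 2) := by
  induction n with
  | zero => simp [pw]; ring
  | succ n ih =>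
    rw [pow_succ β n, mul_right_comm, ← ih]
    simp only [pw]; push_cast
    linear_combination (-((pw n).2.2 : ℂ)) * hβ

theorem evs (a : ℕ → ℤ) (q : ℕ → ℕ) : ((∑ i ∈ range 26, a i * (pw (q i)).1 : ℤ) : ℂ)
    + (∑ i ∈ range 26, a i * (pw (q i)).2.1 : ℤ) * β
    + (∑ i ∈ range 26, a i * (pw (q i)).2.2 : ℤ) * β ^ 2
    = (∑ i ∈ range 26, (a i : ℂ) * β ^ q i) * (-7 - 49 * β - 33 * β ^ 2) := by
  push_cast
  rw [sum_mul, sum_mul, sum_mul, ← sum_add_distrib, ← sum_add_distrib]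
  exact sum_congr rfl fun i _ => by rw [mul_assoc (a i : ℂ) (β ^ q i), ← ev hβ]; ring

theorem ne0 : β ≠ 0 := by rintro rfl; simp at hβ

theorem rep (x : sumSet (blockDigits β {0, 1} 26)) : ∃ g, Bin g ∧ ((x : ℂ) = 0 → g = 0) ∧
    (x : ℂ) = ∑ r ∈ range 26, (g r : ℂ) * β ^ r * (β ^ 26) ^ ex r := by
  by_cases h0 : (x : ℂ) = 0
  · exact ⟨0, fun _ => Or.inl rfl, fun _ => rfl, by simp [h0]⟩
  obtain ⟨_, _, ⟨a, ha, rfl⟩, _, ⟨b, hb, rfl⟩, rfl⟩ := x
  have bn : ∀ a : ℕ → ℤ, (∀ i < 26, a i ∈ ({0, 1} : Set ℤ)) →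
      Bin fun i => if i < 26 then a i else 0 := fun a ha i => by
    by_cases h : i < 26
    · simpa [h] using ha i h
    · simp [h]
  obtain ⟨g, hg, e1, e2, e3⟩ := comb (bn a ha) (bn b hb)
  refine ⟨g, hg, fun h => absurd h h0, ?_⟩
  have hw : (-7 - 49 * β - 33 * β ^ 2) * β ^ 13 ≠ 0 := by
    refine mul_ne_zero (fun h => ?_) (pow_ne_zero _ (ne0 hβ))
    have := ev hβ 30
    rw [h, show pw 30 = (1, 0, 0) by decide +kernel] at this
    simp at this
  refine mul_right_cancel₀ hw ?_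
  have s1 : ∀ a : ℕ → ℤ, ∑ i ∈ range 26, (((if i < 26 then a i else 0 : ℤ)) : ℂ) * β ^ (i + 13)
      = (∑ i ∈ range 26, (a i : ℂ) * β ^ i) * β ^ 13 := fun a => by
    rw [sum_mul]
    exact sum_congr rfl fun i hi => by rw [if_pos (mem_range.1 hi)]; ring
  have s2 : ∑ i ∈ range 26, (g i : ℂ) * β ^ pp i
      = (∑ r ∈ range 26, (g r : ℂ) * β ^ r * (β ^ 26) ^ ex r) * β ^ 13 := by
    rw [sum_mul]
    refine sum_congr rfl fun i hi => ?_
    have : ∀ i ∈ range 26, (pp i : ℤ) = i + 26 * ex i + 13 := by decide +kernel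
    rw [← zpow_natCast β (pp i), this i hi, zpow_add₀ (ne0 hβ), zpow_add₀ (ne0 hβ), zpow_mul]
    norm_cast
    ring
  have t1 := evs hβ (fun i => if i < 26 then a i else 0) fun i => i + 13
  have t2 := evs hβ (fun i => if i < 26 then b i else 0) fun i => i + 13
  have t3 := evs hβ g pp
  rw [← e1, ← e2, ← e3, s2] at t3
  rw [s1] at t1 t2
  push_cast at t1 t2 t3 ⊢
  linear_combination t3 - t1 - t2

theorem par : BlockParallel β {0, 1} 26 := by
  choose g hg h0 hx using rep hβ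
  have hB : β ^ 26 ≠ 0 := pow_ne_zero _ (ne0 hβ)
  refine ⟨fun u j => ⟨∑ r ∈ range 26, (g (u (j - ex r)) r : ℂ) * β ^ r,
    fun r => g (u (j - ex r)) r, fun r _ => hg _ r, rfl⟩, fun u hu => ?_, 1, 1,
    fun w => ⟨∑ r ∈ range 26, (g (w ⟨(1 + ex r).toNat, by unfold ex; split_ifs <;> simp⟩) r : ℂ)
      * β ^ r, fun r => g (w ⟨(1 + ex r).toNat, by unfold ex; split_ifs <;> simp⟩) r,
      fun r _ => hg _ r, rfl⟩, fun u j => ?_⟩
  · have fin : ∀ (r : ℕ) (e : ℤ) (c : ℤ → ℂ),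
        (Function.support fun j => (g (u (j - e)) r : ℂ) * c j).Finite := fun r e c => by
      refine (hu.image (· + e)).subset fun j hj => ⟨j - e, fun h => hj ?_, by simp⟩
      simp [h0 _ h]
    constructor
    · refine (Set.Finite.biUnion (range 26).finite_toSet
        fun r _ => fin r (ex r) fun _ => β ^ r).subset ?_
      intro j hj
      have hj' : ∑ r ∈ range 26, (g (u (j - ex r)) r : ℂ) * β ^ r ≠ 0 := hj
      obtain ⟨r, hr, h⟩ := exists_ne_zero_of_sum_ne_zero hj'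
      exact Set.mem_biUnion (mem_coe.2 hr) h
    · have l1 : ∀ j : ℤ, (∑ r ∈ range 26, (g (u (j - ex r)) r : ℂ) * β ^ r) * (β ^ 26) ^ j
          = ∑ r ∈ range 26, (g (u (j - ex r)) r : ℂ) * (β ^ r * (β ^ 26) ^ j) := fun j => by
        rw [sum_mul]; exact sum_congr rfl fun r _ => mul_assoc _ _ _
      have l2 : ∀ j : ℤ, (u j : ℂ) * (β ^ 26) ^ j = ∑ r ∈ range 26,
          (g (u (j - 0)) r : ℂ) * (β ^ r * (β ^ 26) ^ (j + ex r)) := fun j => by
        rw [hx (u j), sum_mul, sub_zero]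
        exact sum_congr rfl fun r _ => by rw [zpow_add₀ hB]; ring
      simp only [l1, l2]
      rw [finsum_sum_comm _ _ fun r _ => fin r (ex r) _, finsum_sum_comm _ _ fun r _ => fin r 0 _]
      refine sum_congr rfl fun r _ => ?_
      rw [← finsum_comp_equiv (Equiv.addRight (ex r))]
      simp
  · refine Subtype.ext ?_
    dsimp only
    refine sum_congr rfl fun r _ => ?_
    have : j + (1 : ℕ) - ((1 + ex r).toNat : ℕ) = j - ex r := by
      unfold ex; split_ifs <;> omega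
    simp only [this]

omit hβ in
theorem result : ∃ β : ℂ, 1 < ‖β‖ ∧ β ^ 3 - β + 1 = 0 ∧ BlockParallel β {0, 1} 26 := by
  obtain ⟨x, ⟨h1, h2⟩, h3⟩ := intermediate_value_Icc (f := fun x : ℝ => x ^ 3 - x + 1)
    (show (-2 : ℝ) ≤ -5 / 4 by norm_num) (by fun_prop) (show (0 : ℝ) ∈ Set.Icc _ _ by norm_num)
  have h4 : (x : ℂ) ^ 3 - x + 1 = 0 := by exact_mod_cast congrArg (fun y : ℝ => (y : ℂ)) h3
  refine ⟨x, ?_, h4, par h4⟩
  rw [Complex.norm_real, Real.norm_eq_abs, abs_of_neg (by linarith)]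
  linarith

end Pool.Agent.Results.MP_8e4c55_nt.Binary
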